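import Mathlib
import Pool.Agent.R890.CompWqo

/-!
# Complementary thresholds of toric pairs

For toric contractions and torus invariant divisors, of every dimension, the
`(ε, ℝ)`-complementary thresholds with coefficients in DCC sets satisfy the ascending chain
condition.
-/

set_option autoImplicit false

namespace Pool.Agent.Results.MP_205183_ag.ToricComplements

open Pool.Agent.R890

/-- There is no sequence of toric complementary pairs with coefficients in DCC sets whose
`(ε, ℝ)`-complementary thresholds are strictly increasing. -/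
theorem result (d : ℕ) (ε : ℝ) (hε : 0 ≤ ε) (Γ₁ Γ₂ : Set ℝ) (hΓ₁ : IsDCC Γ₁) (hΓ₂ : IsDCC Γ₂) :
    ¬ ∃ T : ℕ → CompTuple d ε Γ₁ Γ₂, StrictMono fun k => (T k).threshold := by
  rintro ⟨T, hT⟩
  obtain ⟨k, l, hkl, h⟩ := exists_good_subset hε hΓ₁ hΓ₂ T
  exact absurd (sSup_le_sSup (Set.image_mono h)) (not_le.2 (hT hkl))

end Pool.Agent.Results.MP_205183_ag.ToricComplements
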